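import Mathlib
import Pool.Agent.R591.PF.Near

set_option autoImplicit false

open Set Ordinal Order Cardinal

namespace Pool.Agent.Results.MP_671f97_gt.LadderUniformization

open Pool.Agent.R591.PF

/-- Let `Ω` be a set of cardinality `ℵ₁`.

(1) The Boolean algebras `P(ℕ)/Fin` and `P(Ω)/Fin` are isomorphic if and only if some
automorphism of `P(Ω)/Fin` is not cardinality-preserving.

(2) If `P(ℕ)/Fin` and `P(Ω)/Fin` are isomorphic, then there is a uniformizable ladder system on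
the set of all countable limit ordinals.

(3) If `P(ℕ)/Fin` and `P(Ω)/Fin` are isomorphic, then every ladder system on the countable limit
ordinals has a finite perturbation which is a uniformizable ladder system. -/
theorem result (Ω : Type) (hΩ : #Ω = ℵ₁) :
    (Nonempty (PFin ℕ ≃o PFin Ω) ↔ ∃ π : PFin Ω ≃o PFin Ω, ¬ CardPres π) ∧
    (Nonempty (PFin ℕ ≃o PFin Ω) →
      ∃ C : Ordinal.{0} → Set Ordinal.{0}, (∀ δ ∈ LimSet, IsLadder (C δ) δ) ∧
        Unif LimSet C) ∧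
    (Nonempty (PFin ℕ ≃o PFin Ω) →
      ∀ D : Ordinal.{0} → Set Ordinal.{0}, (∀ δ ∈ LimSet, IsLadder (D δ) δ) →
        ∃ C : Ordinal.{0} → Set Ordinal.{0},
          (∀ δ ∈ LimSet, IsLadder (C δ) δ ∧ Near (C δ) (D δ)) ∧ Unif LimSet C) := by
  refine ⟨omega_iff hΩ, ?_, near_of_omega hΩ⟩
  rintro ⟨φ⟩
  obtain ⟨σ, hσ⟩ := exists_shift
  have h1 : #Ω = #((ω₁ : Ordinal.{0}).ToType) := by rw [hΩ]; simp
  obtain ⟨E⟩ := Cardinal.eq.1 h1
  let e : Ω ≃ Set.Iio (ω₁ : Ordinal.{0}) := E.trans Ordinal.ToType.mk.symm.toEquiv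
  obtain ⟨C, hC, hC2⟩ := ladder_moved e (φ.symm.trans (σ.trans φ))
  rw [moved_eq e (noFix_transfer φ hσ)] at hC hC2
  exact ⟨C, hC, hC2⟩

end Pool.Agent.Results.MP_671f97_gt.LadderUniformization
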